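import Pool.Agent.Helper20.HP.Data2

/-!
# HOPF-B1: uniform bounds by compactness
-/

open Filter Metric Module Set
open scoped Topology ContDiff RealInnerProductSpace Manifold Quaternion

namespace Pool.Agent.Helper59.HP
open Pool.Agent.Helper20.PC Pool.Agent.Helper20.HP

/-- continuity of a jet-valued function -/
def CJ {P : Type} [TopologicalSpace P] (J : P → J2) : Prop :=
  Continuous (fun p => (J p).a) ∧ Continuous (fun p => (J p).b) ∧ Continuous (fun p => (J p).c)

section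
variable {P : Type} [TopologicalSpace P]

theorem CJ.const (j : J2) : CJ (fun _ : P => j) :=
  ⟨continuous_const, continuous_const, continuous_const⟩

theorem CJ.add {J K : P → J2} (hJ : CJ J) (hK : CJ K) : CJ (fun p => J p + K p) :=
  ⟨hJ.1.add hK.1, hJ.2.1.add hK.2.1, hJ.2.2.add hK.2.2⟩

theorem CJ.sub {J K : P → J2} (hJ : CJ J) (hK : CJ K) : CJ (fun p => J p - K p) :=
  ⟨hJ.1.sub hK.1, hJ.2.1.sub hK.2.1, hJ.2.2.sub hK.2.2⟩

theorem CJ.neg {J : P → J2} (hJ : CJ J) : CJ (fun p => - J p) :=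
  ⟨hJ.1.neg, hJ.2.1.neg, hJ.2.2.neg⟩

theorem CJ.mul {J K : P → J2} (hJ : CJ J) (hK : CJ K) : CJ (fun p => J p * K p) :=
  ⟨hJ.1.mul hK.1, (hJ.1.mul hK.2.1).add (hJ.2.1.mul hK.1),
    ((hJ.1.mul hK.2.2).add (continuous_const.mul (hJ.2.1.mul hK.2.1))).add (hJ.2.2.mul hK.1)⟩

theorem CJ.smul (r : ℝ) {J : P → J2} (hJ : CJ J) : CJ (fun p => r • J p) :=
  ⟨continuous_const.mul hJ.1, continuous_const.mul hJ.2.1, continuous_const.mul hJ.2.2⟩

theorem CJ.pow {J : P → J2} (hJ : CJ J) : ∀ n : ℕ, CJ (fun p => J p ^ n) := by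
  intro n
  induction n with
  | zero => simpa using CJ.const (P := P) (1 : J2)
  | succ n ih =>
    simp only [pow_succ]
    exact ih.mul hJ

theorem CJ.Sb {κ ε T : ℝ} {x a b : P → Fin 3 → J2} (hx : ∀ i, CJ (fun p => x p i))
    (ha : ∀ i, CJ (fun p => a p i)) (hb : ∀ i, CJ (fun p => b p i)) :
    CJ (fun p => SbG κ ε T (x p) (a p) (b p)) := by
  unfold SbG dotG HbG FbG PhG
  repeat' first
    | exact hx _
    | exact ha _
    | exact hb _
    | apply CJ.pow
    | apply CJ.add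
    | apply CJ.sub
    | apply CJ.neg
    | apply CJ.mul
    | apply CJ.smul
    | exact CJ.const _

theorem ccoord {f : P → E3} (hf : Continuous f) (i : Fin 3) : Continuous (fun p => f p i) :=
  (EuclideanSpace.proj (𝕜 := ℝ) i).continuous.comp hf

theorem ccr {f g : P → E3} (hf : Continuous f) (hg : Continuous g) :
    Continuous (fun p => cr (f p) (g p)) := by
  have h : Continuous (fun p => crL (f p) (g p)) := (crL.continuous.comp hf).clm_apply hg
  simpa only [crL_apply] using h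

theorem cHb {f g : P → E3} (hf : Continuous f) (hg : Continuous g) :
    Continuous (fun p => Hb (f p) (g p)) := by
  unfold Hb HbG
  exact ((ccoord hf 0).mul ((ccoord hg 1).add (ccoord hg 2))).add
    (((ccoord hf 1).add (ccoord hf 2)).mul (ccoord hg 0))

theorem csg (κ : ℝ) {f : P → E3} (hf : Continuous f) : Continuous (fun p => sg κ (f p)) := by
  unfold sg
  exact continuous_const.sub (continuous_const.mul (cHb hf hf))

theorem crr (ε : ℝ) {f : P → E3} (hf : Continuous f) : Continuous (fun p => rr ε (f p)) := by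
  unfold rr
  exact continuous_const.add (continuous_const.mul (ccoord hf 2))

variable {x X : P → E3} (hx : Continuous x) (hX : Continuous X) (κ ε : ℝ)
include hx hX

theorem csgn : Continuous (fun p => sgn κ (x p) (X p)) := by
  unfold sgn
  exact continuous_const.mul (cHb hx (ccr hx hX))

theorem cjx1 : Continuous (fun p => jx1 κ (x p) (X p)) := by
  unfold jx1
  exact (csg κ hx).smul hX

theorem cjX1 : Continuous (fun p => jX1 κ (x p) (X p)) := by
  unfold jX1
  exact ((csg κ hx).smul hx).neg.sub ((csgn hx hX κ).smul (ccr hx hX))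

theorem cjn1 : Continuous (fun p => jn1 κ (x p) (X p)) := by
  unfold jn1
  exact (csgn hx hX κ).smul hX

theorem cjs1 : Continuous (fun p => js1 κ (x p) (X p)) := by
  unfold js1
  exact continuous_const.mul (cHb hx (cjx1 hx hX κ))

theorem cjsn1 : Continuous (fun p => jsn1 κ (x p) (X p)) := by
  unfold jsn1
  exact continuous_const.mul ((cHb (cjx1 hx hX κ) (ccr hx hX)).add (cHb hx (cjn1 hx hX κ)))

theorem cjx2 : Continuous (fun p => jx2 κ (x p) (X p)) := by
  unfold jx2
  exact ((cjs1 hx hX κ).smul hX).add ((csg κ hx).smul (cjX1 hx hX κ))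

theorem cjw0 : Continuous (fun p => jw0 κ ε (x p) (X p)) := by
  unfold jw0
  exact (((crr ε hx).sub (csg κ hx)).smul (ccr hx hX)).add ((csgn hx hX κ).smul hx)

theorem cjw1 : Continuous (fun p => jw1 κ ε (x p) (X p)) := by
  unfold jw1
  exact ((((continuous_const.mul (ccoord (cjx1 hx hX κ) 2)).sub (cjs1 hx hX κ)).smul
    (ccr hx hX)).add (((crr ε hx).sub (csg κ hx)).smul (cjn1 hx hX κ))).add
    ((cjsn1 hx hX κ).smul hx) |>.add ((csgn hx hX κ).smul (cjx1 hx hX κ))

theorem cjb1 {b : P → E3} (hb : Continuous b) : Continuous (fun p => jb1 κ ε (x p) (X p) (b p)) := by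
  unfold jb1
  exact (ccr (cjw0 hx hX κ ε) hb).neg

theorem cjb2 {b : P → E3} (hb : Continuous b) : Continuous (fun p => jb2 κ ε (x p) (X p) (b p)) := by
  unfold jb2
  exact (ccr (cjw1 hx hX κ ε) hb).neg.sub (ccr (cjw0 hx hX κ ε) (cjb1 hx hX κ ε hb))

theorem cJx (i : Fin 3) : CJ (fun p => Jx κ (x p) (X p) i) :=
  ⟨ccoord hx i, ccoord (cjx1 hx hX κ) i, ccoord (cjx2 hx hX κ) i⟩

theorem cJb {b : P → E3} (hb : Continuous b) (i : Fin 3) :
    CJ (fun p => Jb κ ε (x p) (X p) (b p) i) :=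
  ⟨ccoord hb i, ccoord (cjb1 hx hX κ ε hb) i, ccoord (cjb2 hx hX κ ε hb) i⟩

theorem cSjet (T : ℝ) {a b : P → E3} (ha : Continuous a) (hb : Continuous b) :
    CJ (fun p => SbG κ ε T (Jx κ (x p) (X p)) (Jb κ ε (x p) (X p) (a p))
      (Jb κ ε (x p) (X p) (b p))) :=
  CJ.Sb (fun i => cJx hx hX κ i) (fun i => cJb hx hX κ ε ha i) (fun i => cJb hx hX κ ε hb i)

end

theorem cr_smul (a b : E3) (r : ℝ) : cr a (r • b) = r • cr a b := by
  ext i
  fin_cases i <;> simp [cr] <;> ring

theorem Jb_smul (κ ε : ℝ) (x X b : E3) (r : ℝ) (i : Fin 3) :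
    Jb κ ε x X (r • b) i = r • Jb κ ε x X b i := by
  have h1 : jb1 κ ε x X (r • b) = r • jb1 κ ε x X b := by
    unfold jb1
    rw [cr_smul, smul_neg]
  have h2 : jb2 κ ε x X (r • b) = r • jb2 κ ε x X b := by
    unfold jb2
    rw [cr_smul, h1, cr_smul, smul_sub, smul_neg]
  unfold Jb
  rw [h1, h2]
  rfl

theorem SbG_smul {R : Type*} [CommRing R] [Algebra ℝ R] (κ ε T : ℝ) (x a b : Fin 3 → R)
    (r s : ℝ) : SbG κ ε T x (fun i => r • a i) (fun i => s • b i) =
      (r * s) • SbG κ ε T x a b := by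
  unfold SbG dotG HbG FbG PhG
  simp only [Algebra.smul_def, map_mul]
  ring

theorem S_jet_smul (κ ε T : ℝ) (x X a b : E3) (r s : ℝ) :
    SbG κ ε T (Jx κ x X) (Jb κ ε x X (r • a)) (Jb κ ε x X (s • b)) =
      (r * s) • SbG κ ε T (Jx κ x X) (Jb κ ε x X a) (Jb κ ε x X b) := by
  have h1 : Jb κ ε x X (r • a) = fun i => r • Jb κ ε x X a i := funext (Jb_smul κ ε x X a r)
  have h2 : Jb κ ε x X (s • b) = fun i => s • Jb κ ε x X b i := funext (Jb_smul κ ε x X b s)
  rw [h1, h2, SbG_smul]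

theorem bihom_bound (f : E3 → E3 → E3 → E3 → ℝ)
    (hf : Continuous (fun p : E3 × E3 × E3 × E3 => f p.1 p.2.1 p.2.2.1 p.2.2.2))
    (hh : ∀ x X a b : E3, ∀ r s : ℝ, f x X (r • a) (s • b) = r * s * f x X a b) :
    ∃ B : ℝ, 0 ≤ B ∧ ∀ x X : E3, ‖x‖ = 1 → ‖X‖ = 1 → ∀ a b : E3,
      |f x X a b| ≤ B * ‖a‖ * ‖b‖ := by
  have hK : IsCompact (sphere (0 : E3) 1 ×ˢ (sphere (0 : E3) 1 ×ˢ
      (sphere (0 : E3) 1 ×ˢ sphere (0 : E3) 1))) :=
    (isCompact_sphere _ _).prod ((isCompact_sphere _ _).prod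
      ((isCompact_sphere _ _).prod (isCompact_sphere _ _)))
  obtain ⟨B, hB⟩ := hK.exists_bound_of_continuousOn hf.continuousOn
  refine ⟨max B 0, le_max_right _ _, fun x X hx hX a b => ?_⟩
  rcases eq_or_ne a 0 with rfl | ha
  · have := hh x X 0 b 0 1
    rw [zero_smul, one_smul, zero_mul, zero_mul] at this
    rw [this]
    simp
  rcases eq_or_ne b 0 with rfl | hb
  · have := hh x X a 0 1 0
    rw [zero_smul, one_smul, mul_zero, zero_mul] at this
    rw [this]
    simp
  have ha0 : ‖a‖ ≠ 0 := norm_ne_zero_iff.2 ha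
  have hb0 : ‖b‖ ≠ 0 := norm_ne_zero_iff.2 hb
  have h1 := hB (x, X, ‖a‖⁻¹ • a, ‖b‖⁻¹ • b) ⟨by simpa using hx, by simpa using hX, by
    rw [mem_sphere_zero_iff_norm, norm_smul, norm_inv, norm_norm, inv_mul_cancel₀ ha0], by
    rw [mem_sphere_zero_iff_norm, norm_smul, norm_inv, norm_norm, inv_mul_cancel₀ hb0]⟩
  have h2 : f x X a b = ‖a‖ * ‖b‖ * f x X (‖a‖⁻¹ • a) (‖b‖⁻¹ • b) := by
    rw [← hh, smul_smul, smul_smul, mul_inv_cancel₀ ha0, mul_inv_cancel₀ hb0, one_smul, one_smul]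
  rw [h2, abs_mul, abs_of_nonneg (by positivity)]
  rw [Real.norm_eq_abs] at h1
  have h3 : |f x X (‖a‖⁻¹ • a) (‖b‖⁻¹ • b)| ≤ max B 0 := h1.trans (le_max_left _ _)
  calc ‖a‖ * ‖b‖ * |f x X (‖a‖⁻¹ • a) (‖b‖⁻¹ • b)| ≤ ‖a‖ * ‖b‖ * max B 0 :=
        mul_le_mul_of_nonneg_left h3 (by positivity)
    _ = max B 0 * ‖a‖ * ‖b‖ := by ring

theorem contDiff_coord (i : Fin 3) : ContDiff ℝ 1 (fun x : E3 => x i) :=
  (EuclideanSpace.proj (𝕜 := ℝ) i).contDiff

theorem contDiff_Hb : ContDiff ℝ 1 (fun x : E3 => Hb x x) := by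
  unfold Hb HbG
  exact ((contDiff_coord 0).mul ((contDiff_coord 1).add (contDiff_coord 2))).add
    (((contDiff_coord 1).add (contDiff_coord 2)).mul (contDiff_coord 0))

theorem contDiff_sg (κ : ℝ) : ContDiff ℝ 1 (fun x : E3 => sg κ x) := by
  unfold sg
  exact contDiff_const.sub (contDiff_const.mul contDiff_Hb)

theorem norm_Hv (x : E3) : ‖Hv x‖ ^ 2 = (x 1 + x 2) ^ 2 + x 0 ^ 2 + x 0 ^ 2 := by
  rw [EuclideanSpace.norm_eq, Real.sq_sqrt (Finset.sum_nonneg (fun _ _ => by positivity)),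
    Fin.sum_univ_three]
  simp [Hv]

theorem contDiff_Kc (κ : ℝ) : ContDiff ℝ 1 (fun x : E3 => Kc κ x) := by
  unfold Kc
  simp only [norm_Hv]
  exact (((contDiff_sg κ).pow 2).add ((contDiff_const.mul (contDiff_sg κ)).mul contDiff_Hb)).sub
    (contDiff_const.mul ((((((contDiff_coord 1).add (contDiff_coord 2)).pow 2).add
      ((contDiff_coord 0).pow 2)).add ((contDiff_coord 0).pow 2)).sub (contDiff_Hb.pow 2)))

theorem contDiff_om (κ ε : ℝ) : ContDiff ℝ 1 (om κ ε) := by
  unfold om rr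
  exact ((((contDiff_Kc κ).sub ((contDiff_const.add (contDiff_const.mul
    (contDiff_coord 2))).pow 2)).smul contDiff_id).add
    ((contDiff_const.mul (contDiff_sg κ)).smul
      (contDiff_const.sub ((contDiff_coord 2).smul contDiff_id)))).neg

/-- B1 : uniform bounds by compactness -/
theorem exists_bd (κ ε T : ℝ) (hκ : |κ| ≤ 1/10) :
    ∃ B : ℝ, ∀ x X : E3, ‖x‖ = 1 → ‖X‖ = 1 → ⟪x, X⟫ = 0 → Bd κ ε T B x X := by
  obtain ⟨B1, hB1, h1⟩ := bihom_bound (fun x X a b => S1 κ ε T x X a b)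
    (cSjet (P := E3 × E3 × E3 × E3) continuous_fst (continuous_fst.comp continuous_snd) κ ε T
      (continuous_fst.comp (continuous_snd.comp continuous_snd))
      (continuous_snd.comp (continuous_snd.comp continuous_snd))).2.1
    (fun x X a b r s => by
      unfold S1
      rw [S_jet_smul]
      rfl)
  obtain ⟨B2, hB2, h2⟩ := bihom_bound (fun x X a b => S2 κ ε T x X a b)
    (cSjet (P := E3 × E3 × E3 × E3) continuous_fst (continuous_fst.comp continuous_snd) κ ε T
      (continuous_fst.comp (continuous_snd.comp continuous_snd))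
      (continuous_snd.comp (continuous_snd.comp continuous_snd))).2.2
    (fun x X a b r s => by
      unfold S2
      rw [S_jet_smul]
      rfl)
  obtain ⟨B3, hB3, h3⟩ := bihom_bound (fun x _ a b => Sb κ ε T x a b)
    (cSjet (P := E3 × E3 × E3 × E3) continuous_fst (continuous_fst.comp continuous_snd) κ ε T
      (continuous_fst.comp (continuous_snd.comp continuous_snd))
      (continuous_snd.comp (continuous_snd.comp continuous_snd))).1
    (fun x X a b r s => by
      unfold Sb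
      exact SbG_smul κ ε T _ _ _ r s)
  have hK : IsCompact (sphere (0 : E3) 1 ×ˢ sphere (0 : E3) 1) :=
    (isCompact_sphere _ _).prod (isCompact_sphere _ _)
  have hcK : Continuous (fun p : E3 × E3 => Kc κ p.1) :=
    (contDiff_Kc κ).continuous.comp continuous_fst
  have hcom : Continuous (fun p : E3 × E3 => om κ ε p.1) :=
    (contDiff_om κ ε).continuous.comp continuous_fst
  have hcdom : Continuous (fun p : E3 × E3 => dom κ ε p.1 p.2) := by
    unfold dom
    have h4 : Continuous (fun p : E3 × E3 => fderiv ℝ (om κ ε) p.1) :=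
      ((contDiff_om κ ε).continuous_fderiv (by norm_num)).comp continuous_fst
    exact (h4.clm_apply (cjx1 continuous_fst continuous_snd κ)).add
      (ccr (cjw0 continuous_fst continuous_snd κ ε) hcom)
  obtain ⟨C1, hC1⟩ := hK.exists_bound_of_continuousOn hcK.continuousOn
  obtain ⟨C2, hC2⟩ := hK.exists_bound_of_continuousOn hcom.continuousOn
  obtain ⟨C3, hC3⟩ := hK.exists_bound_of_continuousOn hcdom.continuousOn
  set B : ℝ := 1 + B1 + B2 + B3 + |C1| + |C2| + |C3| with hB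
  refine ⟨B, fun x X hx hX _ => ?_⟩
  have hmem : (x, X) ∈ sphere (0 : E3) 1 ×ˢ sphere (0 : E3) 1 :=
    ⟨by simpa using hx, by simpa using hX⟩
  have a1 := abs_nonneg C1
  have a2 := abs_nonneg C2
  have a3 := abs_nonneg C3
  have l1 := le_abs_self C1
  have l2 := le_abs_self C2
  have l3 := le_abs_self C3
  have mono : ∀ C : ℝ, C ≤ B → ∀ a b : E3, C * ‖a‖ * ‖b‖ ≤ B * ‖a‖ * ‖b‖ := by
    intro C hC a b
    exact mul_le_mul_of_nonneg_right (mul_le_mul_of_nonneg_right hC (norm_nonneg _))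
      (norm_nonneg _)
  refine ⟨by linarith, ?_, ?_, ?_, fun a b => ?_, fun a b => ?_, fun a b => ?_⟩
  · have := hC1 _ hmem
    rw [Real.norm_eq_abs] at this
    simp only at this
    linarith
  · have := hC2 _ hmem
    simp only at this
    linarith
  · have := hC3 _ hmem
    simp only at this
    linarith
  · exact (h3 x X hx hX a b).trans (mono B3 (by linarith) a b)
  · exact (h1 x X hx hX a b).trans (mono B1 (by linarith) a b)
  · exact (h2 x X hx hX a b).trans (mono B2 (by linarith) a b)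

end Pool.Agent.Helper59.HP
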